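import Mathlib

set_option autoImplicit false

open Set Filter Topology

namespace Pool.Agent.Results.MP_6bd103_gt.PerfectImage

/-- A space is paralindelof if every open cover has a locally countable open refinement. -/
def Paralindelof (X : Type) [TopologicalSpace X] : Prop :=
  ∀ 𝒰 : Set (Set X), (∀ u ∈ 𝒰, IsOpen u) → ⋃₀ 𝒰 = Set.univ →
    ∃ 𝒱 : Set (Set X), (∀ v ∈ 𝒱, IsOpen v) ∧ ⋃₀ 𝒱 = Set.univ ∧ (∀ v ∈ 𝒱, ∃ u ∈ 𝒰, v ⊆ u) ∧
      ∀ x : X, ∃ N ∈ 𝓝 x, {v | v ∈ 𝒱 ∧ (v ∩ N).Nonempty}.Countable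

variable {X Y : Type} [TopologicalSpace X] [TopologicalSpace Y]

/-- The points whose fibre is contained in `S`. -/
def star (f : X → Y) (S : Set X) : Set Y := {y | f ⁻¹' {y} ⊆ S}

theorem isOpen_star {f : X → Y} (hc : IsClosedMap f) {S : Set X} (hS : IsOpen S) :
    IsOpen (star f S) := by
  have : star f S = (f '' Sᶜ)ᶜ := by
    ext y
    simp only [star, mem_compl_iff, mem_image, not_exists, not_and]
    constructor
    · intro h x hx hxy
      exact hx (h hxy)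
    · intro h x hx
      by_contra hxS
      exact h x hxS hx
  rw [this]
  exact (hc _ hS.isClosed_compl).isOpen_compl

/-- The images of a locally countable family under a closed map with Lindelof fibres form a
locally countable family. -/
theorem image_locally_countable {f : X → Y} (hc : IsClosedMap f)
    (hfib : ∀ y : Y, IsLindelof (f ⁻¹' {y})) {𝒱 : Set (Set X)}
    (h𝒱 : ∀ x : X, ∃ N ∈ 𝓝 x, {v | v ∈ 𝒱 ∧ (v ∩ N).Nonempty}.Countable) (y : Y) :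
    ∃ O : Set Y, IsOpen O ∧ y ∈ O ∧ {v | v ∈ 𝒱 ∧ (f '' v ∩ O).Nonempty}.Countable := by
  choose N hN hNc using h𝒱
  obtain ⟨t, ht, -, htc⟩ := (hfib y).elim_nhds_subcover (fun x => interior (N x))
    (fun x _ => interior_mem_nhds.2 (hN x))
  refine ⟨star f (⋃ x ∈ t, interior (N x)),
    isOpen_star hc (isOpen_biUnion fun x _ => isOpen_interior), htc, ?_⟩
  refine (ht.biUnion fun x _ => hNc x).mono ?_
  rintro v ⟨hv, _, ⟨z, hz, rfl⟩, hzO⟩
  obtain ⟨x, hx, hzx⟩ := mem_iUnion₂.1 (hzO (show z ∈ f ⁻¹' {f z} from rfl))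
  exact mem_iUnion₂.2 ⟨x, hx, hv, z, hz, interior_subset hzx⟩

/-- Closed images with Lindelof fibres of paralindelof spaces are paralindelof. -/
theorem main {f : X → Y} (hf : Continuous f) (hc : IsClosedMap f) (hs : Function.Surjective f)
    (hfib : ∀ y : Y, IsLindelof (f ⁻¹' {y})) (hX : Paralindelof X) : Paralindelof Y := by
  classical
  intro 𝒰 h𝒰 hcov
  -- a locally countable open refinement `𝒱` of the inverse images of the members of `𝒰`
  obtain ⟨𝒱, v1, v2, v3, v4⟩ := hX ((fun u => f ⁻¹' u) '' 𝒰)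
    (by rintro _ ⟨u, hu, rfl⟩; exact (h𝒰 u hu).preimage hf) (by
      rw [eq_univ_iff_forall]
      intro x
      have hx : f x ∈ ⋃₀ 𝒰 := by rw [hcov]; trivial
      obtain ⟨u, hu, hxu⟩ := hx
      exact ⟨f ⁻¹' u, ⟨u, hu, rfl⟩, hxu⟩)
  have hU : ∀ v : 𝒱, ∃ u ∈ 𝒰, (v : Set X) ⊆ f ⁻¹' u := by
    rintro ⟨v, hv⟩
    obtain ⟨_, ⟨u, hu, rfl⟩, h⟩ := v3 v hv
    exact ⟨u, hu, h⟩
  choose U hU1 hU2 using hU
  -- each point of `Y` has a neighbourhood `O y` meeting only countably many images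
  choose O o1 o2 o3 using image_locally_countable hc hfib v4
  -- the second refinement
  obtain ⟨𝒲, w1, w2, w3, w4⟩ := hX (range fun y => f ⁻¹' (O y))
    (by rintro _ ⟨y, rfl⟩; exact (o1 y).preimage hf) (by
      rw [eq_univ_iff_forall]
      intro x
      exact ⟨f ⁻¹' (O (f x)), ⟨f x, rfl⟩, o2 (f x)⟩)
  have hWV : ∀ w ∈ 𝒲, {v | v ∈ 𝒱 ∧ (f '' v ∩ f '' w).Nonempty}.Countable := by
    intro w hw
    obtain ⟨_, ⟨y, rfl⟩, hwy⟩ := w3 w hw
    refine (o3 y).mono ?_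
    rintro v ⟨hv, z, hz, ⟨x, hx, rfl⟩⟩
    exact ⟨hv, f x, hz, hwy hx⟩
  -- choose an index for each point of `Y`
  have hch : ∀ y : Y, ∃ v : 𝒱, y ∈ f '' (v : Set X) := by
    intro y
    obtain ⟨x, rfl⟩ := hs y
    have hx : x ∈ ⋃₀ 𝒱 := by rw [v2]; trivial
    obtain ⟨v, hv, hxv⟩ := hx
    exact ⟨⟨v, hv⟩, x, hxv, rfl⟩
  choose V hV using hch
  let T : Y → Set Y := fun y => star f (⋃₀ {w | w ∈ 𝒲 ∧ y ∈ f '' w}) ∩ U (V y)
  have hTo : ∀ y, IsOpen (T y) := fun y =>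
    (isOpen_star hc (isOpen_sUnion fun w hw => w1 w hw.1)).inter (h𝒰 _ (hU1 _))
  have hyT : ∀ y, y ∈ T y := by
    intro y
    refine ⟨?_, ?_⟩
    · intro x hx
      have hx' : x ∈ ⋃₀ 𝒲 := by rw [w2]; trivial
      obtain ⟨w, hw, hxw⟩ := hx'
      exact ⟨w, ⟨hw, x, hxw, hx⟩, hxw⟩
    · obtain ⟨x, hx, hxy⟩ := hV y
      have := hU2 (V y) hx
      rwa [mem_preimage, hxy] at this
  let R : 𝒱 → Set Y := fun v => ⋃ y ∈ {y | V y = v}, T y
  refine ⟨{r | ∃ v : 𝒱, R v = r ∧ r.Nonempty}, ?_, ?_, ?_, ?_⟩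
  · rintro _ ⟨v, rfl, -⟩
    exact isOpen_biUnion fun y _ => hTo y
  · rw [eq_univ_iff_forall]
    intro y
    have hy : y ∈ R (V y) := mem_iUnion₂.2 ⟨y, rfl, hyT y⟩
    exact ⟨R (V y), ⟨V y, rfl, ⟨y, hy⟩⟩, hy⟩
  · rintro _ ⟨v, rfl, -⟩
    refine ⟨U v, hU1 v, ?_⟩
    intro z hz
    obtain ⟨y, hy, hzy⟩ := mem_iUnion₂.1 hz
    have hy' : V y = v := hy
    rw [← hy']
    exact hzy.2
  · intro y'
    obtain ⟨O', hO', hyO', hct⟩ := image_locally_countable hc hfib w4 y'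
    refine ⟨O', hO'.mem_nhds hyO', ?_⟩
    have hct2 : (⋃ w ∈ {w | w ∈ 𝒲 ∧ (f '' w ∩ O').Nonempty},
        {v | v ∈ 𝒱 ∧ (f '' v ∩ f '' w).Nonempty}).Countable :=
      hct.biUnion fun w hw => hWV w hw.1
    have hct3 : {v : 𝒱 | (v : Set X) ∈ ⋃ w ∈ {w | w ∈ 𝒲 ∧ (f '' w ∩ O').Nonempty},
        {v | v ∈ 𝒱 ∧ (f '' v ∩ f '' w).Nonempty}}.Countable :=
      hct2.preimage Subtype.val_injective
    refine (hct3.image R).mono ?_
    rintro _ ⟨⟨v, rfl, -⟩, z, hz, hzO⟩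
    refine ⟨v, ?_, rfl⟩
    obtain ⟨y, hy, hzy⟩ := mem_iUnion₂.1 hz
    have hy' : V y = v := hy
    obtain ⟨x, rfl⟩ := hs z
    obtain ⟨w, ⟨hw, hyw⟩, hxw⟩ := hzy.1 (show x ∈ f ⁻¹' {f x} from rfl)
    refine mem_iUnion₂.2 ⟨w, ⟨hw, f x, ⟨x, hxw, rfl⟩, hzO⟩, v.2, y, ?_, hyw⟩
    rw [← hy']
    exact hV y

/-- Sanity check: the definition is not vacuous; every compact space is paralindelof. -/
theorem paralindelof_of_compact [CompactSpace X] : Paralindelof X := by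
  intro 𝒰 h𝒰 hcov
  obtain ⟨F, hF, hfin, hFc⟩ := isCompact_univ.elim_finite_subcover_image (b := 𝒰) (c := id) h𝒰
    (by
      intro x hx
      rw [← hcov] at hx
      obtain ⟨u, hu, hxu⟩ := hx
      exact mem_biUnion hu hxu)
  refine ⟨F, fun v hv => h𝒰 v (hF hv), ?_, fun v hv => ⟨v, hF hv, subset_rfl⟩, fun x =>
    ⟨univ, univ_mem, (hfin.countable).mono fun v hv => hv.1⟩⟩
  rw [eq_univ_iff_forall]
  intro x
  obtain ⟨v, hv, hxv⟩ := mem_iUnion₂.1 (hFc (mem_univ x))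
  exact ⟨v, hv, hxv⟩

/-- A perfect image of a paralindelof space is paralindelof. No separation axiom is needed. -/
theorem result (X Y : Type) [TopologicalSpace X] [TopologicalSpace Y] (f : X → Y)
    (hf : Continuous f) (hc : IsClosedMap f) (hs : Function.Surjective f)
    (hfib : ∀ y : Y, IsCompact (f ⁻¹' {y})) (hX : Paralindelof X) : Paralindelof Y :=
  main hf hc hs (fun y => (hfib y).isLindelof) hX

end Pool.Agent.Results.MP_6bd103_gt.PerfectImage
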